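import Pool.Agent.J4H83.OD.Fun

namespace Pool.Agent.J4H83.OD

set_option maxRecDepth 100000 in
/-- the kernel runs the enumeration -/
theorem goAll_true : goAll = true := by decide +kernel

end Pool.Agent.J4H83.OD
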