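import Pool.Agent.J4H83.OD.Link
import Pool.Agent.J4H83.OD.Run

/-!
# The A- and D-optimal design in `D(7,4,3)`
-/

open Finset Matrix

namespace Pool.Agent.J4H83.OD

/-- every connected design can be relabelled so that the enumeration meets it -/
lemma chk_perm (d : Design 7 4 3) (hc : d.Connected) :
    ∃ d2 : Design 7 4 3, d2.theta = d.theta ∧ chk (List.ofFn (codes d2)) = true := by
  -- the greatest code of a treatment in any order of the blocks
  let F : Fin 7 × Equiv.Perm (Fin 4) → ℕ := fun p => cd (fun B => d.N p.1 (p.2 B))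
  obtain ⟨⟨i1, π1⟩, _, hmax⟩ := Finset.exists_max_image Finset.univ F ⟨(0, 1), Finset.mem_univ _⟩
  have hmax' : ∀ (i : Fin 7) (π : Equiv.Perm (Fin 4)),
      cd (fun B => d.N i (π B)) ≤ cd (fun B => d.N i1 (π1 B)) :=
    fun i π => hmax (i, π) (Finset.mem_univ _)
  let f : Fin 7 → ℕ := fun i => cd (fun B => d.N i (π1 B))
  let σ : Equiv.Perm (Fin 7) := Tuple.sort f
  have hmono : Monotone (f ∘ σ) := Tuple.monotone_sort f
  let d2 : Design 7 4 3 := d.perm σ π1
  have hd2 : ∀ i, codes d2 i = f (σ i) := fun i => rfl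
  refine ⟨d2, perm_theta d σ π1, ?_⟩
  have hN : ∀ i B, d2.N i B ≤ 3 := fun i B => N_le d2 i B
  have h := goAll_spec goAll_true (List.ofFn (codes d2)).reverse (by simp) ?_ ?_ ?_ ?_
  · rwa [List.reverse_reverse] at h
  · intro c hc'
    rw [List.mem_reverse, List.mem_ofFn] at hc'
    obtain ⟨i, rfl⟩ := hc'
    have hr := rep_pos d (by norm_num) hc (σ i)
    rw [← perm_rep d σ π1 i, ← repc_cd] at hr
    have : repc 0 = 0 := rfl
    rcases Nat.eq_zero_or_pos (codes d2 i) with h0 | h0
    · unfold codes at h0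
      change 0 < repc (cd (d2.N i)) at hr
      rw [h0, this] at hr
      exact absurd hr (lt_irrefl _)
    · exact h0
  · rw [List.pairwise_reverse, List.pairwise_ofFn]
    intro i j hij
    exact hmono hij.le
  · have hS := d2.size
    have hdig : ∀ i, _ := fun i => digits (hN i)
    unfold DS
    simp only [List.map_reverse, List.sum_reverse, List.map_ofFn, List.sum_ofFn,
      Function.comp_def]
    refine ⟨?_, ?_, ?_, ?_⟩
    · exact (Finset.sum_congr rfl fun i _ => (hdig i).1).trans (hS 0)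
    · exact (Finset.sum_congr rfl fun i _ => (hdig i).2.1).trans (hS 1)
    · exact (Finset.sum_congr rfl fun i _ => (hdig i).2.2.1).trans (hS 2)
    · exact (Finset.sum_congr rfl fun i _ => (hdig i).2.2.2).trans (hS 3)
  · intro c hc' c0 _ hc0
    rw [List.mem_reverse, List.mem_ofFn] at hc'
    obtain ⟨i, rfl⟩ := hc'
    have h1 : f i1 ≤ c0 := by
      apply hc0
      rw [List.mem_reverse, List.mem_ofFn]
      exact ⟨σ.symm i1, by rw [hd2, Equiv.apply_symm_apply]⟩
    obtain ⟨π, hπ⟩ := MX_perm (d2.N i) (hN i)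
    have h2 : MX (codes d2 i) = cd (fun j => d2.N i (π j)) := hπ
    rw [h2]
    refine le_trans ?_ h1
    exact hmax' (σ i) (π.trans π1)

/-- the bounds for all connected designs of `D(7,4,3)` -/
lemma bounds (d : Design 7 4 3) (hc : d.Connected) :
    729 * d.theta.prod ≤ 2016 ∧ 167 / 28 ≤ (d.theta.map fun x => x⁻¹).sum := by
  obtain ⟨d2, hth, hchk⟩ := chk_perm d hc
  have hpos : ∀ x ∈ d2.theta, 0 < x := by
    rw [hth]; exact theta_pos d (by norm_num) (by norm_num) hc
  obtain ⟨h6, h5⟩ := link d2 hpos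
  rw [← hth]
  have hprod : 0 < d2.theta.prod := by
    apply Multiset.prod_pos
    exact hpos
  rw [chk_eq] at hchk
  unfold tst at hchk
  rw [Bool.and_eq_true, Bool.or_eq_true, decide_eq_true_eq, decide_eq_true_eq,
    decide_eq_true_eq] at hchk
  obtain ⟨hA, hB⟩ := hchk
  have hA' : (((chkE (List.ofFn (codes d2))).2 : ℤ) : ℝ) ≤ 2016 * 720 := by exact_mod_cast hA
  refine ⟨by rw [h6] at hA'; linarith, ?_⟩
  rcases hB with hB | hB
  · exfalso
    have hB' : (((chkE (List.ofFn (codes d2))).2 : ℤ) : ℝ) = 0 := by exact_mod_cast hB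
    rw [h6] at hB'
    linarith
  · have hB' : 167 * (((chkE (List.ofFn (codes d2))).2 : ℤ) : ℝ)
        ≤ 84 * 6 * (((chkE (List.ofFn (codes d2))).1 : ℤ) : ℝ) := by exact_mod_cast hB
    rw [h6, h5] at hB'
    have h7 : d2.theta.prod * (167 / 28)
        ≤ d2.theta.prod * (d2.theta.map fun x => x⁻¹).sum := by linarith
    exact le_of_mul_le_mul_left h7 hprod

/-- the design with the blocks `{0,1,2}`, `{0,3,4}`, `{1,3,5}`, `{2,4,6}` -/
def dA : Design 7 4 3 where
  N i B := (![![1, 1, 0, 0], ![1, 0, 1, 0], ![1, 0, 0, 1], ![0, 1, 1, 0], ![0, 1, 0, 1],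
    ![0, 0, 1, 0], ![0, 0, 0, 1]] : Fin 7 → Fin 4 → ℕ) i B
  size := by decide

lemma dA_binary : dA.Binary := by
  unfold Design.Binary; decide

lemma dA_rep (i : Fin 7) : dA.rep i = ![2, 2, 2, 2, 2, 1, 1] i := by
  revert i; decide

lemma dA_conc (i j : Fin 7) : dA.conc i j = (![![2, 1, 1, 1, 1, 0, 0], ![1, 2, 1, 1, 0, 1, 0],
    ![1, 1, 2, 0, 1, 0, 1], ![1, 1, 0, 2, 1, 1, 0], ![1, 0, 1, 1, 2, 0, 1],
    ![0, 1, 0, 1, 0, 1, 0], ![0, 0, 1, 0, 1, 0, 1]] : Fin 7 → Fin 7 → ℕ) i j := by
  revert i j; decide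

lemma dA_connected : dA.Connected := by
  have hadj : ∀ i j : Fin 7, i ≠ j → 0 < dA.conc i j → dA.graph.Adj i j := fun i j h h' => ⟨h, h'⟩
  have h1 : dA.graph.Reachable 0 1 := (hadj 0 1 (by decide) (by decide)).reachable
  have h2 : dA.graph.Reachable 0 2 := (hadj 0 2 (by decide) (by decide)).reachable
  have h3 : dA.graph.Reachable 0 3 := (hadj 0 3 (by decide) (by decide)).reachable
  have h4 : dA.graph.Reachable 0 4 := (hadj 0 4 (by decide) (by decide)).reachable
  have h5 : dA.graph.Reachable 0 5 := h1.trans (hadj 1 5 (by decide) (by decide)).reachable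
  have h6 : dA.graph.Reachable 0 6 := h2.trans (hadj 2 6 (by decide) (by decide)).reachable
  have hreach : ∀ j : Fin 7, dA.graph.Reachable 0 j := by
    intro j
    fin_cases j
    · exact SimpleGraph.Reachable.refl _
    · exact h1
    · exact h2
    · exact h3
    · exact h4
    · exact h5
    · exact h6
  have : Nonempty (Fin 7) := ⟨0⟩
  exact ⟨fun i j => (hreach i).symm.trans (hreach j)⟩

set_option maxRecDepth 100000 in
lemma dA_chkE : chkE (List.ofFn (codes dA)) = (120 * 4008, 720 * 2016) := by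
  decide +kernel

lemma dA_vals : 729 * dA.theta.prod = 2016 ∧ (dA.theta.map fun x => x⁻¹).sum = 167 / 28 := by
  have hpos := theta_pos dA (by norm_num) (by norm_num) dA_connected
  obtain ⟨h6, h5⟩ := link dA hpos
  rw [dA_chkE] at h6 h5
  push_cast at h6 h5
  have hprod : dA.theta.prod = 2016 / 729 := by linarith
  refine ⟨by linarith, ?_⟩
  rw [hprod] at h5
  linarith

theorem dA_AOptimal : dA.AOptimal :=
  ⟨dA_connected, fun d' hc => by rw [dA_vals.2]; exact (bounds d' hc).2⟩

theorem dA_DOptimal : dA.DOptimal :=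
  ⟨dA_connected, fun d' hc => by
    have h1 := dA_vals.1
    have h2 := (bounds d' hc).1
    linarith⟩

end Pool.Agent.J4H83.OD
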