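import Mathlib.Analysis.Matrix.Spectrum
import Mathlib.Combinatorics.SimpleGraph.Connectivity.Connected
import Mathlib.Data.Real.Basic

/-!
# Block designs, the optimality criteria, and pairwise variance

Everything below follows the conventions of the question: a design has `b` blocks, each a multiset
of `k` of the `v` treatments, given by the multiplicities `N i B`.
-/

open Finset Matrix

namespace Pool.Agent.J4H83.OD

/-- A block design with `v` treatments and `b` blocks, each block a multiset of `k` treatments;
`N i B` is the multiplicity of the treatment `i` in the block `B`. -/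
structure Design (v b k : ℕ) where
  /-- the multiplicities -/
  N : Fin v → Fin b → ℕ
  /-- every block has `k` plots -/
  size : ∀ B, ∑ i, N i B = k

namespace Design

variable {v b k : ℕ} (d : Design v b k)

/-- the replication `r_i` -/
def rep (i : Fin v) : ℕ := ∑ B, d.N i B

/-- the concurrence `λ_ij` (used for `i ≠ j`) -/
def conc (i j : Fin v) : ℕ := ∑ B, d.N i B * d.N j B

/-- the information matrix `C = R - k⁻¹ N Nᵀ` -/
noncomputable def info : Matrix (Fin v) (Fin v) ℝ :=
  Matrix.of fun i j => (if i = j then (d.rep i : ℝ) else 0) - (k : ℝ)⁻¹ * (d.conc i j : ℝ)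

/-- the (simple graph underlying the) concurrence graph -/
def graph : SimpleGraph (Fin v) where
  Adj i j := i ≠ j ∧ 0 < d.conc i j
  symm := ⟨fun i j h => ⟨h.1.symm, by
    have : d.conc j i = d.conc i j := by
      unfold conc; exact Finset.sum_congr rfl fun B _ => Nat.mul_comm _ _
    rw [this]; exact h.2⟩⟩
  loopless := ⟨fun i h => h.1 rfl⟩

/-- the design is connected: its concurrence graph is connected -/
def Connected : Prop := d.graph.Connected

/-- the non-trivial eigenvalues `θ_1, …, θ_{v-1}` of the information matrix, with multiplicity:
the roots of its characteristic polynomial after one root `0` is removed -/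
noncomputable def theta : Multiset ℝ := d.info.charpoly.roots.erase 0

/-- the design is binary -/
def Binary : Prop := ∀ i B, d.N i B ≤ 1

/-- A-optimal in `D(v,b,k)`: connected, and it minimises `∑ 1/θ_i` over the connected designs -/
def AOptimal : Prop :=
  d.Connected ∧ ∀ d' : Design v b k, d'.Connected →
    (d.theta.map fun x => x⁻¹).sum ≤ (d'.theta.map fun x => x⁻¹).sum

/-- D-optimal in `D(v,b,k)`: connected, and it maximises `∏ θ_i` over the connected designs -/
def DOptimal : Prop :=
  d.Connected ∧ ∀ d' : Design v b k, d'.Connected → d'.theta.prod ≤ d.theta.prod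

/-- E-optimal in `D(v,b,k)`: connected, and it maximises the least non-trivial eigenvalue `θ_1`
over the connected designs (every connected design `d'` has a non-trivial eigenvalue that is at
most every non-trivial eigenvalue of `d`) -/
def EOptimal : Prop :=
  d.Connected ∧ ∀ d' : Design v b k, d'.Connected → ∃ x ∈ d'.theta, ∀ y ∈ d.theta, x ≤ y

/-- `G` is a generalised inverse `C⁻` of the information matrix -/
def IsGInv (G : Matrix (Fin v) (Fin v) ℝ) : Prop := d.info * G * d.info = d.info

end Design

/-- the pairwise variance `(e_i - e_j)ᵀ G (e_i - e_j)` computed with the matrix `G` -/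
noncomputable def pvar {v : ℕ} (G : Matrix (Fin v) (Fin v) ℝ) (i j : Fin v) : ℝ :=
  (Pi.single i 1 - Pi.single j 1 : Fin v → ℝ) ⬝ᵥ (G *ᵥ (Pi.single i 1 - Pi.single j 1))

end Pool.Agent.J4H83.OD
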