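import Pool.Agent.J4H83.OD.Spec

/-!
# `K_{2,4}` is E-optimal in `D(6,8,2)`
-/

open Finset Matrix

namespace Pool.Agent.J4H83.OD

variable {v b k : ℕ}

lemma sq_const (d : Design v b k) (hk : 0 < k) (hc : d.Connected) {i0 : Fin v}
    (h0 : ev d i0 = 0) (w : Fin v → ℝ) : (eu d i0 ⬝ᵥ w) ^ 2 * v = (∑ a, w a) ^ 2 := by
  have h1 := eu_dot d i0 i0
  rw [if_pos rfl] at h1
  have hcst : ∀ a, eu d i0 a = eu d i0 i0 := fun a => eu_const d hk hc h0 a i0
  simp only [dotProduct, hcst, Finset.sum_const, Finset.card_univ, Fintype.card_fin,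
    nsmul_eq_mul] at h1
  have h2 : eu d i0 ⬝ᵥ w = eu d i0 i0 * ∑ a, w a := by
    simp only [dotProduct, Finset.mul_sum]
    exact Finset.sum_congr rfl fun a _ => by rw [hcst a]
  rw [h2]
  calc (eu d i0 i0 * ∑ a, w a) ^ 2 * v
      = (v * (eu d i0 i0 * eu d i0 i0)) * (∑ a, w a) ^ 2 := by ring
    _ = (∑ a, w a) ^ 2 := by rw [h1, one_mul]

/-- the Rayleigh bound -/
lemma rayleigh (d : Design v b k) (hk : 0 < k) (hv : 0 < v) (hc : d.Connected) (m : ℝ)
    (hm : ∀ x ∈ d.theta, m ≤ x) (w : Fin v → ℝ) :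
    m * (w ⬝ᵥ w - (∑ a, w a) ^ 2 / v) ≤ w ⬝ᵥ (d.info *ᵥ w) := by
  obtain ⟨i0, h0⟩ := exists_ev_zero d hk hv
  have hv' : (v : ℝ) ≠ 0 := by positivity
  have hs : (∑ a, w a) ^ 2 / v = (eu d i0 ⬝ᵥ w) ^ 2 := by
    rw [← sq_const d hk hc h0 w]; field_simp
  rw [quad_expand, norm_expand d, hs, ← Finset.add_sum_erase _ _ (Finset.mem_univ i0),
    ← Finset.add_sum_erase _ _ (Finset.mem_univ i0), h0]
  have : m * ∑ i ∈ Finset.univ.erase i0, (eu d i ⬝ᵥ w) ^ 2
      ≤ ∑ i ∈ Finset.univ.erase i0, ev d i * (eu d i ⬝ᵥ w) ^ 2 := by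
    rw [Finset.mul_sum]
    refine Finset.sum_le_sum fun i hi => ?_
    have hi' := Finset.ne_of_mem_erase hi
    have := hm (ev d i) ((mem_theta d h0 _).2 ⟨i, hi', rfl⟩)
    exact mul_le_mul_of_nonneg_right this (sq_nonneg _)
  linarith

/-- the least element of `theta` -/
lemma exists_min (d : Design v b k) (hk : 0 < k) (hv : 1 < v) :
    ∃ x ∈ d.theta, ∀ y ∈ d.theta, x ≤ y := by
  have hcard := theta_card d hk (by omega)
  have hne : d.theta.toFinset.Nonempty := by
    rw [Finset.nonempty_iff_ne_empty]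
    intro h
    have : d.theta = 0 := by
      rw [← Multiset.toFinset_eq_empty]; exact h
    rw [this] at hcard
    simp at hcard; omega
  refine ⟨d.theta.toFinset.min' hne, ?_, ?_⟩
  · exact Multiset.mem_toFinset.1 (Finset.min'_mem _ hne)
  · intro y hy
    exact Finset.min'_le _ _ (Multiset.mem_toFinset.2 hy)

lemma info_quad_single (d : Design v b k) (i j : Fin v) (a c : ℝ) (hij : i ≠ j) :
    (Pi.single i a + Pi.single j c : Fin v → ℝ) ⬝ᵥ
      (d.info *ᵥ (Pi.single i a + Pi.single j c : Fin v → ℝ))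
      = a ^ 2 * d.info i i + c ^ 2 * d.info j j + 2 * (a * c) * d.info i j := by
  have hs : d.info j i = d.info i j := by
    have := (info_isHermitian d).apply i j
    simpa using this
  simp only [Matrix.mulVec_add, Matrix.mulVec_single, add_dotProduct, dotProduct_add,
    single_dotProduct, Pi.smul_apply, Matrix.col_apply, MulOpposite.smul_eq_mul_unop,
    MulOpposite.unop_op]
  rw [hs]; ring

lemma sum_rep (d : Design v b k) : ∑ i, d.rep i = b * k := by
  unfold Design.rep
  rw [Finset.sum_comm]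
  simp [d.size]

/-- every connected design of `D(6,8,2)` has a non-trivial eigenvalue at most `1` -/
lemma e_upper (d : Design 6 8 2) (hc : d.Connected) : ∃ x ∈ d.theta, x ≤ 1 := by
  obtain ⟨x, hx, hmin⟩ := exists_min d (by norm_num) (by norm_num)
  refine ⟨x, hx, ?_⟩
  have hxpos := theta_pos d (by norm_num) (by norm_num) hc x hx
  have hR := rayleigh d (by norm_num) (by norm_num) hc x hmin
  -- degrees
  set δ : Fin 6 → ℕ := fun i => ∑ j ∈ Finset.univ.erase i, d.conc i j with hδ
  have hδ1 : ∀ i, δ i + d.conc i i = 2 * d.rep i := by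
    intro i
    rw [← conc_row d i, ← Finset.sum_erase_add _ _ (Finset.mem_univ i)]
  have hδ2 : ∀ i, d.rep i ≤ d.conc i i := by
    intro i
    unfold Design.rep Design.conc
    exact Finset.sum_le_sum fun B _ => Nat.le_mul_self _
  have hδ3 : ∑ i, δ i ≤ 16 := by
    have h1 := sum_rep d
    have h2 : ∑ i, δ i ≤ ∑ i, d.rep i := Finset.sum_le_sum fun i _ => by
      have := hδ1 i; have := hδ2 i; omega
    omega
  have hCii : ∀ i, d.info i i = (δ i : ℝ) / 2 := by
    intro i
    have h1 : (δ i : ℝ) + d.conc i i = 2 * d.rep i := by exact_mod_cast hδ1 i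
    simp only [Design.info, Matrix.of_apply, if_true]
    push_cast
    linarith
  have hCij : ∀ i j, i ≠ j → d.info i j = -((d.conc i j : ℝ) / 2) := by
    intro i j h
    simp only [Design.info, Matrix.of_apply, if_neg h]
    push_cast
    ring
  by_cases hcase : ∃ i, δ i ≤ 1
  · obtain ⟨i, hi⟩ := hcase
    have h := hR (Pi.single i 1)
    have e1 : (Pi.single i 1 : Fin 6 → ℝ) ⬝ᵥ (d.info *ᵥ (Pi.single i 1)) = d.info i i := by
      simp [single_dotProduct]
    have e2 : (Pi.single i 1 : Fin 6 → ℝ) ⬝ᵥ (Pi.single i 1) = 1 := by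
      simp [single_dotProduct]
    have e3 : ∑ a, (Pi.single i 1 : Fin 6 → ℝ) a = 1 := by simp
    rw [e1, e2, e3, hCii] at h
    have hi' : (δ i : ℝ) ≤ 1 := by exact_mod_cast hi
    norm_num at h
    linarith
  · push Not at hcase
    have hex : ∃ i, δ i ≤ 2 := by
      by_contra hno
      push Not at hno
      have : ∑ i : Fin 6, 3 ≤ ∑ i, δ i := Finset.sum_le_sum fun i _ => hno i
      simp at this; omega
    obtain ⟨i, hi⟩ := hex
    have hex2 : ∃ j, j ≠ i ∧ δ j ≤ 2 := by
      by_contra hno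
      push Not at hno
      have h1 : ∑ j ∈ Finset.univ.erase i, 3 ≤ ∑ j ∈ Finset.univ.erase i, δ j :=
        Finset.sum_le_sum fun j hj => hno j (Finset.ne_of_mem_erase hj)
      rw [Finset.sum_const, Finset.card_erase_of_mem (Finset.mem_univ i)] at h1
      simp only [Finset.card_univ, Fintype.card_fin, smul_eq_mul] at h1
      have h2 := Finset.add_sum_erase Finset.univ δ (Finset.mem_univ i)
      have h3 := hcase i
      omega
    obtain ⟨j, hji, hj⟩ := hex2
    have hi' : (δ i : ℝ) ≤ 2 := by exact_mod_cast hi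
    have hj' : (δ j : ℝ) ≤ 2 := by exact_mod_cast hj
    have hij : i ≠ j := hji.symm
    have key : ∀ c : ℝ, (Pi.single i 1 + Pi.single j c : Fin 6 → ℝ) ⬝ᵥ
        (Pi.single i 1 + Pi.single j c : Fin 6 → ℝ) = 1 + c ^ 2 := by
      intro c
      simp only [add_dotProduct, dotProduct_add, single_dotProduct, Pi.single_eq_same,
        Pi.single_eq_of_ne hij, Pi.single_eq_of_ne hji]
      ring
    have ksum : ∀ c : ℝ, ∑ a, (Pi.single i 1 + Pi.single j c : Fin 6 → ℝ) a = 1 + c := by
      intro c; simp [Finset.sum_add_distrib]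
    rcases Nat.eq_zero_or_pos (d.conc i j) with h0 | h0
    · have h := hR (Pi.single i 1 + Pi.single j (-1))
      rw [info_quad_single d i j 1 (-1) hij, key, ksum, hCii, hCii, hCij i j hij, h0] at h
      norm_num at h
      linarith
    · have h := hR (Pi.single i 1 + Pi.single j 1)
      rw [info_quad_single d i j 1 1 hij, key, ksum, hCii, hCii, hCij i j hij] at h
      have h0' : (1 : ℝ) ≤ d.conc i j := by exact_mod_cast h0
      norm_num at h
      linarith

/-- the design `K_{2,4}`: treatments `0, 1` against `2, 3, 4, 5`, one block for every pair -/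
def dE : Design 6 8 2 where
  N i B := if i.val = B.val / 4 ∨ i.val = 2 + B.val % 4 then 1 else 0
  size := by decide

lemma dE_binary : dE.Binary := by
  intro i B
  unfold dE
  dsimp only
  split_ifs <;> omega

lemma dE_conc (i j : Fin 6) : dE.conc i j =
    if i = j then (if i.val < 2 then 4 else 2)
    else if (i.val < 2 ∧ 2 ≤ j.val) ∨ (2 ≤ i.val ∧ j.val < 2) then 1 else 0 := by
  revert i j; decide

lemma dE_connected : dE.Connected := by
  have hadj : ∀ i j : Fin 6, i.val < 2 → 2 ≤ j.val → dE.graph.Adj i j := by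
    intro i j hi hj
    refine ⟨fun h => by subst h; omega, ?_⟩
    rw [dE_conc, if_neg (fun h => by subst h; omega), if_pos (Or.inl ⟨hi, hj⟩)]
    norm_num
  have hreach : ∀ j : Fin 6, dE.graph.Reachable 0 j := by
    intro j
    by_cases hj : 2 ≤ j.val
    · exact (hadj 0 j (by decide) hj).reachable
    · exact (hadj 0 2 (by decide) (by decide)).reachable.trans
        (hadj j 2 (by omega) (by decide)).symm.reachable
  have : Nonempty (Fin 6) := ⟨0⟩
  exact ⟨fun i j => (hreach i).symm.trans (hreach j)⟩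

lemma dE_lower : ∀ y ∈ dE.theta, 1 ≤ y := by
  obtain ⟨i0, h0⟩ := exists_ev_zero dE (by norm_num) (by norm_num)
  intro y hy
  obtain ⟨i, hi, rfl⟩ := (mem_theta dE h0 y).1 hy
  have hs := sum_eu dE (by norm_num) dE_connected h0 hi
  have h1 := eu_dot dE i i
  rw [if_pos rfl] at h1
  rw [← eu_quad, quad dE (by norm_num)]
  set x := eu dE i with hx
  rw [← h1]
  simp only [dotProduct, Fin.sum_univ_succ, Fin.sum_univ_zero, dE_conc] at hs ⊢
  simp [Fin.ext_iff] at hs ⊢
  have h2 : (x 0 + x 1) * (x 0 + (x 1 + (x 2 + (x 3 + (x 4 + x 5))))) = 0 := by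
    rw [hs, mul_zero]
  nlinarith [sq_nonneg (x 0), sq_nonneg (x 1), sq_nonneg (x 0 + x 1), h2]

theorem dE_optimal : dE.EOptimal := by
  refine ⟨dE_connected, fun d' hc => ?_⟩
  obtain ⟨x, hx, hx1⟩ := e_upper d' hc
  exact ⟨x, hx, fun y hy => hx1.trans (dE_lower y hy)⟩

end Pool.Agent.J4H83.OD
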