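import Mathlib.Tactic

/-!
# The enumeration of the designs in `D(7,4,3)`: the functions evaluated by the kernel

A treatment is coded by the number `N i 0 + 4 * N i 1 + 16 * N i 2 + 64 * N i 3`.
-/

namespace Pool.Agent.J4H83.OD

/-- dot product of two codes -/
def dotc (a b : ℕ) : ℕ :=
  (a % 4) * (b % 4) + (a / 4 % 4) * (b / 4 % 4) + (a / 16 % 4) * (b / 16 % 4) + (a / 64) * (b / 64)

/-- digit sum of a code -/
def repc (a : ℕ) : ℕ := a % 4 + a / 4 % 4 + a / 16 % 4 + a / 64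

/-- dot product of two lists -/
def dotN : List ℕ → List ℕ → ℕ
  | a :: l, b :: m => a * b + dotN l m
  | _, _ => 0

/-- a row of the matrix `18 - 3 C` -/
def rowP (a : ℕ) : ℕ → List ℕ → List ℕ
  | _, [] => []
  | 0, b :: l => (18 + dotc a b - 3 * repc a) :: l.map (dotc a)
  | k + 1, b :: l => (dotc a b) :: rowP a k l

/-- the rows of the matrix `18 - 3 C` -/
def matP (all : List ℕ) : ℕ → List ℕ → List (List ℕ)
  | _, [] => []
  | k, a :: l => rowP a k all :: matP all (k + 1) l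

/-- rows times rows -/
def mulN (A B : List (List ℕ)) : List (List ℕ) := A.map (fun r => B.map (fun s => dotN r s))

/-- entrywise inner product -/
def ipN : List (List ℕ) → List (List ℕ) → ℕ
  | a :: l, b :: m => dotN a b + ipN l m
  | _, _ => 0

/-- trace -/
def trN : ℕ → List (List ℕ) → ℕ
  | _, [] => 0
  | k, a :: l => a.getD k 0 + trN (k + 1) l

/-- `2 e₂` from the power sums -/
def E2 (p1 p2 : ℤ) : ℤ := p1 * p1 - p2
/-- `6 e₃` -/
def E3 (p1 p2 p3 : ℤ) : ℤ := E2 p1 p2 * p1 - 2 * p1 * p2 + 2 * p3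
/-- `24 e₄` -/
def E4 (p1 p2 p3 p4 : ℤ) : ℤ := E3 p1 p2 p3 * p1 - 3 * E2 p1 p2 * p2 + 6 * p1 * p3 - 6 * p4
/-- `120 e₅` -/
def E5 (p1 p2 p3 p4 p5 : ℤ) : ℤ :=
  E4 p1 p2 p3 p4 * p1 - 4 * E3 p1 p2 p3 * p2 + 12 * E2 p1 p2 * p3 - 24 * p1 * p4 + 24 * p5
/-- `720 e₆` -/
def E6 (p1 p2 p3 p4 p5 p6 : ℤ) : ℤ :=
  E5 p1 p2 p3 p4 p5 * p1 - 5 * E4 p1 p2 p3 p4 * p2 + 20 * E3 p1 p2 p3 * p3
    - 60 * E2 p1 p2 * p4 + 120 * p1 * p5 - 120 * p6

/-- power sums of the `λ`'s from those of the `18 - λ`'s -/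
def P1 (q1 : ℤ) : ℤ := 126 - q1
/-- second power sum -/
def P2 (q1 q2 : ℤ) : ℤ := 7 * 18 ^ 2 - 2 * 18 * q1 + q2
/-- third power sum -/
def P3 (q1 q2 q3 : ℤ) : ℤ := 7 * 18 ^ 3 - 3 * 18 ^ 2 * q1 + 3 * 18 * q2 - q3
/-- fourth power sum -/
def P4 (q1 q2 q3 q4 : ℤ) : ℤ :=
  7 * 18 ^ 4 - 4 * 18 ^ 3 * q1 + 6 * 18 ^ 2 * q2 - 4 * 18 * q3 + q4
/-- fifth power sum -/
def P5 (q1 q2 q3 q4 q5 : ℤ) : ℤ :=
  7 * 18 ^ 5 - 5 * 18 ^ 4 * q1 + 10 * 18 ^ 3 * q2 - 10 * 18 ^ 2 * q3 + 5 * 18 * q4 - q5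
/-- sixth power sum -/
def P6 (q1 q2 q3 q4 q5 q6 : ℤ) : ℤ :=
  7 * 18 ^ 6 - 6 * 18 ^ 5 * q1 + 15 * 18 ^ 4 * q2 - 20 * 18 ^ 3 * q3 + 15 * 18 ^ 2 * q4
    - 6 * 18 * q5 + q6

/-- the test on `(120 e₅, 720 e₆)` -/
def tst (e5 e6 : ℤ) : Bool :=
  decide (e6 ≤ 2016 * 720) && (decide (e6 = 0) || decide (167 * e6 ≤ 84 * 6 * e5))

/-- the test on the power sums -/
def tstp (p1 p2 p3 p4 p5 p6 : ℤ) : Bool :=
  tst (E5 p1 p2 p3 p4 p5) (E6 p1 p2 p3 p4 p5 p6)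

/-- the final test on the traces `q_j = tr (18 - 3 C) ^ j` -/
def fin6 (q1 q2 q3 q4 q5 q6 : ℤ) : Bool :=
  tstp (P1 q1) (P2 q1 q2) (P3 q1 q2 q3) (P4 q1 q2 q3 q4) (P5 q1 q2 q3 q4 q5)
    (P6 q1 q2 q3 q4 q5 q6)

/-- the test on a list of codes -/
def chk (l : List ℕ) : Bool :=
  let L := matP l 0 l
  let L2 := mulN L L
  let L3 := mulN L2 L
  fin6 (trN 0 L) (ipN L L) (ipN L L2) (ipN L2 L2) (ipN L2 L3) (ipN L3 L3)

/-- the codes digitwise below `rem` -/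
def subs (rem : ℕ) : List ℕ :=
  (List.range (rem / 64 + 1)).flatMap fun d =>
    (List.range (rem / 16 % 4 + 1)).flatMap fun c =>
      (List.range (rem / 4 % 4 + 1)).flatMap fun b =>
        (List.range (rem % 4 + 1)).map fun a => a + 4 * b + 16 * c + 64 * d

/-- digits sorted in decreasing order -/
def MX (x : ℕ) : ℕ :=
  let a := x % 4
  let b := x / 4 % 4
  let c := x / 16 % 4
  let d := x / 64
  let hi1 := max a b
  let lo1 := min a b
  let hi2 := max c d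
  let lo2 := min c d
  let t := max hi1 hi2
  let u := min hi1 hi2
  let w := max lo1 lo2
  let s := min lo1 lo2
  64 * t + 16 * max u w + 4 * min u w + s

/-- enumeration of the remaining codes, in decreasing order -/
def go : ℕ → ℕ → ℕ → ℕ → List ℕ → Bool
  | 0, rem, _, _, acc => if rem = 0 then chk acc else true
  | n + 1, rem, prev, top, acc =>
      (subs rem).all fun c =>
        if c = 0 ∨ prev < c ∨ (n + 1) * c < rem ∨ top < MX c then true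
        else go n (rem - c) c top (c :: acc)

/-- the whole enumeration -/
def goAll : Bool :=
  (subs 255).all fun c =>
    if c = 0 ∨ 7 * c < 255 ∨ c < MX c then true else go 6 (255 - c) c c [c]

end Pool.Agent.J4H83.OD
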