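import Pool.Agent.J4H83.OD.Fun

/-!
# Completeness of the enumeration
-/

namespace Pool.Agent.J4H83.OD

/-- the digits of the entries of `m` add up to the digits of `rem` -/
def DS (m : List ℕ) (rem : ℕ) : Prop :=
  (m.map (fun c => c % 4)).sum = rem % 4 ∧ (m.map (fun c => c / 4 % 4)).sum = rem / 4 % 4 ∧
  (m.map (fun c => c / 16 % 4)).sum = rem / 16 % 4 ∧ (m.map (fun c => c / 64)).sum = rem / 64

lemma DS_cons {c : ℕ} {m : List ℕ} {rem : ℕ} (h : DS (c :: m) rem) :
    (c % 4 ≤ rem % 4 ∧ c / 4 % 4 ≤ rem / 4 % 4 ∧ c / 16 % 4 ≤ rem / 16 % 4 ∧ c / 64 ≤ rem / 64) ∧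
      DS m (rem - c) := by
  unfold DS at h ⊢
  simp only [List.map_cons, List.sum_cons] at h
  obtain ⟨h1, h2, h3, h4⟩ := h
  refine ⟨⟨by omega, by omega, by omega, by omega⟩, ?_, ?_, ?_, ?_⟩ <;> omega

lemma DS_sum : ∀ (m : List ℕ) (rem : ℕ), DS m rem → m.sum = rem := by
  intro m
  induction m with
  | nil => intro rem h; unfold DS at h; simp at h ⊢; omega
  | cons c m ih =>
    intro rem h
    obtain ⟨h1, h2⟩ := DS_cons h
    have := ih _ h2
    rw [List.sum_cons, this]
    omega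

lemma mem_subs {c rem : ℕ} (h1 : c % 4 ≤ rem % 4) (h2 : c / 4 % 4 ≤ rem / 4 % 4)
    (h3 : c / 16 % 4 ≤ rem / 16 % 4) (h4 : c / 64 ≤ rem / 64) : c ∈ subs rem := by
  unfold subs
  simp only [List.mem_flatMap, List.mem_map, List.mem_range]
  exact ⟨c / 64, by omega, c / 16 % 4, by omega, c / 4 % 4, by omega, c % 4, by omega, by omega⟩

lemma go_spec : ∀ (m : List ℕ) (rem prev top : ℕ) (acc : List ℕ),
    go m.length rem prev top acc = true →
    (∀ c ∈ m, 0 < c ∧ c ≤ prev ∧ MX c ≤ top) → m.Pairwise (· ≥ ·) → DS m rem →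
    chk (m.reverse ++ acc) = true := by
  intro m
  induction m with
  | nil =>
    intro rem prev top acc h _ _ hDS
    have h0 := DS_sum _ _ hDS
    simp only [List.sum_nil] at h0
    simp only [List.length_nil, go, ← h0, if_true] at h
    simpa using h
  | cons c m ih =>
    intro rem prev top acc h hm hp hDS
    obtain ⟨⟨h1, h2, h3, h4⟩, hDS'⟩ := DS_cons hDS
    have hsum := DS_sum _ _ hDS
    simp only [List.length_cons, go, List.all_eq_true] at h
    have hc := h c (mem_subs h1 h2 h3 h4)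
    obtain ⟨hc0, hcp, hct⟩ := hm c (by simp)
    rw [List.pairwise_cons] at hp
    have hle : (m.length + 1) * c ≥ rem := by
      rw [← hsum]
      have : (c :: m).sum ≤ (c :: m).length • c := by
        apply List.sum_le_card_nsmul
        intro x hx
        rcases List.mem_cons.1 hx with rfl | hx
        · exact le_rfl
        · exact hp.1 x hx
      simpa using this
    rw [if_neg (by
      rintro (h | h | h | h) <;> omega)] at hc
    have := ih (rem - c) c top (c :: acc) hc (fun x hx => ⟨(hm x (by simp [hx])).1, hp.1 x hx,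
      (hm x (by simp [hx])).2.2⟩) hp.2 hDS'
    simpa using this

lemma goAll_spec (hall : goAll = true) (m : List ℕ) (hlen : m.length = 7)
    (hm0 : ∀ c ∈ m, 0 < c) (hp : m.Pairwise (· ≥ ·)) (hDS : DS m 255)
    (hMX : ∀ c ∈ m, ∀ c0 ∈ m, (∀ x ∈ m, x ≤ c0) → MX c ≤ c0) :
    chk m.reverse = true := by
  match m, hlen with
  | c0 :: m', hlen =>
    obtain ⟨⟨h1, h2, h3, h4⟩, hDS'⟩ := DS_cons hDS
    have hsum := DS_sum _ _ hDS
    unfold goAll at hall
    rw [List.all_eq_true] at hall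
    have hc := hall c0 (mem_subs h1 h2 h3 h4)
    rw [List.pairwise_cons] at hp
    have hmax : ∀ x ∈ c0 :: m', x ≤ c0 := by
      intro x hx
      rcases List.mem_cons.1 hx with rfl | hx
      · exact le_rfl
      · exact hp.1 x hx
    have hle : (c0 :: m').sum ≤ (c0 :: m').length • c0 := List.sum_le_card_nsmul _ _ hmax
    rw [hsum, hlen] at hle
    have hM0 := hMX c0 (by simp) c0 (by simp) hmax
    have h0 := hm0 c0 (by simp)
    simp only [smul_eq_mul] at hle
    rw [if_neg (by rintro (h | h | h) <;> omega)] at hc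
    have hlen' : m'.length = 6 := by simpa using hlen
    rw [← hlen'] at hc
    have := go_spec m' (255 - c0) c0 c0 [c0] hc (fun x hx => ⟨hm0 x (by simp [hx]), hp.1 x hx,
      hMX x (by simp [hx]) c0 (by simp) hmax⟩) hp.2 hDS'
    simpa using this

/-- code of a row -/
def cd (n : Fin 4 → ℕ) : ℕ := n 0 + 4 * n 1 + 16 * n 2 + 64 * n 3

set_option maxRecDepth 100000 in
lemma MX_perm_aux : ∀ a b c e : Fin 4, ∃ π : Equiv.Perm (Fin 4),
    MX (a.val + 4 * b.val + 16 * c.val + 64 * e.val)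
      = cd (fun j => (![a, b, c, e] (π j)).val) := by
  decide +kernel

lemma MX_perm (n : Fin 4 → ℕ) (hn : ∀ j, n j ≤ 3) :
    ∃ π : Equiv.Perm (Fin 4), MX (cd n) = cd (fun j => n (π j)) := by
  have h0 := hn 0
  have h1 := hn 1
  have h2 := hn 2
  have h3 := hn 3
  obtain ⟨π, hπ⟩ := MX_perm_aux ⟨n 0, by omega⟩ ⟨n 1, by omega⟩ ⟨n 2, by omega⟩ ⟨n 3, by omega⟩
  refine ⟨π, ?_⟩
  have : ∀ j, (![(⟨n 0, by omega⟩ : Fin 4), ⟨n 1, by omega⟩, ⟨n 2, by omega⟩, ⟨n 3, by omega⟩]
      (π j)).val = n (π j) := by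
    intro j
    generalize π j = t
    fin_cases t <;> rfl
  simp only [this] at hπ
  exact hπ

end Pool.Agent.J4H83.OD
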