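import Pool.Agent.J4H83.OD.Spec
import Pool.Agent.J4H83.OD.GoSpec

/-!
# The list functions compute the traces of the powers of `18 - 3 C`
-/

open Finset Matrix

namespace Pool.Agent.J4H83.OD

lemma dotN_ofFn : ∀ {n : ℕ} (f g : Fin n → ℕ),
    dotN (List.ofFn f) (List.ofFn g) = ∑ i, f i * g i := by
  intro n
  induction n with
  | zero => intro f g; simp [dotN]
  | succ n ih =>
    intro f g
    rw [List.ofFn_succ, List.ofFn_succ, dotN, ih, Fin.sum_univ_succ]

lemma mulN_ofFn {n m p : ℕ} (A : Fin n → Fin p → ℕ) (B : Fin m → Fin p → ℕ) :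
    mulN (List.ofFn fun i => List.ofFn (A i)) (List.ofFn fun j => List.ofFn (B j))
      = List.ofFn fun i => List.ofFn fun j => ∑ t, A i t * B j t := by
  unfold mulN
  rw [List.map_ofFn]
  congr 1
  funext i
  simp only [Function.comp_apply]
  rw [List.map_ofFn]
  congr 1
  funext j
  simp only [Function.comp_apply]
  rw [dotN_ofFn]

lemma ipN_ofFn : ∀ {n p : ℕ} (A B : Fin n → Fin p → ℕ),
    ipN (List.ofFn fun i => List.ofFn (A i)) (List.ofFn fun j => List.ofFn (B j))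
      = ∑ i, ∑ j, A i j * B i j := by
  intro n
  induction n with
  | zero => intro p A B; simp [ipN]
  | succ n ih =>
    intro p A B
    rw [List.ofFn_succ, List.ofFn_succ, ipN, dotN_ofFn, Fin.sum_univ_succ]
    rw [ih (fun i => A i.succ) (fun i => B i.succ)]

lemma trN_ofFn : ∀ {n : ℕ} (k : ℕ) (f : Fin n → List ℕ),
    trN k (List.ofFn f) = ∑ i, (f i).getD (k + i.val) 0 := by
  intro n
  induction n with
  | zero => intro k f; simp [trN]
  | succ n ih =>
    intro k f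
    rw [List.ofFn_succ, trN, ih, Fin.sum_univ_succ]
    congr 1
    refine Finset.sum_congr rfl fun i _ => ?_
    rw [Fin.val_succ]
    congr 1
    omega

lemma rowP_ofFn (a : ℕ) : ∀ (k : ℕ) {n : ℕ} (g : Fin n → ℕ),
    rowP a k (List.ofFn g) = List.ofFn fun j : Fin n =>
      if j.val = k then 18 + dotc a (g j) - 3 * repc a else dotc a (g j) := by
  intro k
  induction k with
  | zero =>
    intro n g
    cases n with
    | zero => simp [rowP]
    | succ n =>
      rw [List.ofFn_succ, rowP, List.ofFn_succ, List.map_ofFn]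
      congr 1
  | succ k ih =>
    intro n g
    cases n with
    | zero => simp [rowP]
    | succ n =>
      rw [List.ofFn_succ, rowP, List.ofFn_succ, ih]
      congr 1
      congr 1
      funext j
      simp only [Fin.val_succ, Nat.add_right_cancel_iff]

lemma matP_ofFn (all : List ℕ) : ∀ {n : ℕ} (k : ℕ) (g : Fin n → ℕ),
    matP all k (List.ofFn g) = List.ofFn fun i : Fin n => rowP (g i) (k + i.val) all := by
  intro n
  induction n with
  | zero => intro k g; simp [matP]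
  | succ n ih =>
    intro k g
    rw [List.ofFn_succ, matP, List.ofFn_succ, ih]
    congr 1
    congr 1
    funext j
    congr 1
    rw [Fin.val_succ]; omega

/-- the matrix `18 - 3 C` in terms of the codes -/
def mat (c : Fin 7 → ℕ) : Matrix (Fin 7) (Fin 7) ℕ := fun i j =>
  if j.val = 0 + i.val then 18 + dotc (c i) (c j) - 3 * repc (c i) else dotc (c i) (c j)

lemma matP_eq (c : Fin 7 → ℕ) :
    matP (List.ofFn c) 0 (List.ofFn c) = List.ofFn fun i => List.ofFn (mat c i) := by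
  rw [matP_ofFn]
  congr 1
  funext i
  rw [rowP_ofFn]
  rfl

lemma dotc_comm (a b : ℕ) : dotc a b = dotc b a := by
  unfold dotc; ring

lemma mat_symm (c : Fin 7 → ℕ) : (mat c)ᵀ = mat c := by
  ext i j
  simp only [Matrix.transpose_apply, mat, zero_add]
  by_cases h : i = j
  · subst h; rfl
  · have h1 : ¬ (i.val = j.val) := fun h' => h (Fin.ext h')
    have h2 : ¬ (j.val = i.val) := fun h' => h (Fin.ext h'.symm)
    rw [if_neg h1, if_neg h2, dotc_comm]

/-- the numbers `(120 e₅, 720 e₆)` computed by the kernel -/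
def chkE (l : List ℕ) : ℤ × ℤ :=
  let L := matP l 0 l
  let L2 := mulN L L
  let L3 := mulN L2 L
  let q1 : ℤ := trN 0 L
  let q2 : ℤ := ipN L L
  let q3 : ℤ := ipN L L2
  let q4 : ℤ := ipN L2 L2
  let q5 : ℤ := ipN L2 L3
  let q6 : ℤ := ipN L3 L3
  (E5 (P1 q1) (P2 q1 q2) (P3 q1 q2 q3) (P4 q1 q2 q3 q4) (P5 q1 q2 q3 q4 q5),
   E6 (P1 q1) (P2 q1 q2) (P3 q1 q2 q3) (P4 q1 q2 q3 q4) (P5 q1 q2 q3 q4 q5)
    (P6 q1 q2 q3 q4 q5 q6))

lemma chk_eq (l : List ℕ) : chk l = tst (chkE l).1 (chkE l).2 := rfl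

lemma sum_sum_mul (A B : Matrix (Fin 7) (Fin 7) ℕ) :
    ∑ i, ∑ j, A i j * B i j = (A * Bᵀ).trace := by
  simp only [Matrix.trace, Matrix.diag_apply, Matrix.mul_apply, Matrix.transpose_apply]

lemma mul_eqs (c : Fin 7 → ℕ) :
    let L := matP (List.ofFn c) 0 (List.ofFn c)
    let L2 := mulN L L
    let L3 := mulN L2 L
    trN 0 L = ((mat c) ^ 1).trace ∧ ipN L L = ((mat c) ^ 2).trace ∧
    ipN L L2 = ((mat c) ^ 3).trace ∧ ipN L2 L2 = ((mat c) ^ 4).trace ∧
    ipN L2 L3 = ((mat c) ^ 5).trace ∧ ipN L3 L3 = ((mat c) ^ 6).trace := by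
  intro L L2 L3
  set M := mat c with hM
  have hs : Mᵀ = M := mat_symm c
  have hL : L = List.ofFn fun i => List.ofFn (M i) := matP_eq c
  have h2 : ∀ i j, ∑ t, M i t * M j t = (M ^ 2) i j := by
    intro i j
    rw [pow_two, Matrix.mul_apply]
    refine Finset.sum_congr rfl fun t _ => ?_
    rw [← hs, Matrix.transpose_apply, Matrix.transpose_apply, hs]
  have hL2 : L2 = List.ofFn fun i => List.ofFn ((M ^ 2) i) := by
    have : L2 = mulN L L := rfl
    rw [this, hL, mulN_ofFn]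
    congr 1
    funext i
    congr 1
    funext j
    exact h2 i j
  have h3 : ∀ i j, ∑ t, (M ^ 2) i t * M j t = (M ^ 3) i j := by
    intro i j
    rw [pow_succ M 2, Matrix.mul_apply]
    refine Finset.sum_congr rfl fun t _ => ?_
    congr 1
    conv_lhs => rw [← hs]
    rfl
  have hL3 : L3 = List.ofFn fun i => List.ofFn ((M ^ 3) i) := by
    have : L3 = mulN L2 L := rfl
    rw [this, hL, hL2, mulN_ofFn]
    congr 1
    funext i
    congr 1
    funext j
    exact h3 i j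
  have hp : ∀ j : ℕ, (M ^ j)ᵀ = M ^ j := by
    intro j; rw [Matrix.transpose_pow, hs]
  refine ⟨?_, ?_, ?_, ?_, ?_, ?_⟩
  · rw [hL, trN_ofFn, pow_one, Matrix.trace]
    refine Finset.sum_congr rfl fun i _ => ?_
    fin_cases i <;> rfl
  · rw [hL, ipN_ofFn, sum_sum_mul, hs, pow_two]
  · rw [hL, hL2, ipN_ofFn, sum_sum_mul, hp, ← pow_succ']
  · rw [hL2, ipN_ofFn, sum_sum_mul, hp, ← pow_add]
  · rw [hL2, hL3, ipN_ofFn, sum_sum_mul, hp, ← pow_add]
  · rw [hL3, ipN_ofFn, sum_sum_mul, hp, ← pow_add]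


/-! ### from the traces to the eigenvalues -/

lemma digits {n : Fin 4 → ℕ} (hn : ∀ j, n j ≤ 3) :
    cd n % 4 = n 0 ∧ cd n / 4 % 4 = n 1 ∧ cd n / 16 % 4 = n 2 ∧ cd n / 64 = n 3 := by
  have h0 := hn 0
  have h1 := hn 1
  have h2 := hn 2
  have h3 := hn 3
  unfold cd
  refine ⟨?_, ?_, ?_, ?_⟩ <;> omega

lemma N_le (d : Design 7 4 3) (i : Fin 7) (B : Fin 4) : d.N i B ≤ 3 := by
  have h := d.size B
  have := Finset.single_le_sum (f := fun i => d.N i B) (fun i _ => Nat.zero_le _)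
    (Finset.mem_univ i)
  simp only [h] at this
  exact this

lemma dotc_cd (d : Design 7 4 3) (i j : Fin 7) :
    dotc (cd (d.N i)) (cd (d.N j)) = d.conc i j := by
  obtain ⟨a0, a1, a2, a3⟩ := digits (N_le d i)
  obtain ⟨b0, b1, b2, b3⟩ := digits (N_le d j)
  unfold dotc
  rw [a0, a1, a2, a3, b0, b1, b2, b3]
  unfold Design.conc
  simp [Fin.sum_univ_succ]
  ring

lemma repc_cd (d : Design 7 4 3) (i : Fin 7) : repc (cd (d.N i)) = d.rep i := by
  obtain ⟨a0, a1, a2, a3⟩ := digits (N_le d i)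
  unfold repc
  rw [a0, a1, a2, a3]
  unfold Design.rep
  simp [Fin.sum_univ_succ]
  ring

lemma rep_conc (d : Design 7 4 3) (i : Fin 7) : 3 * d.rep i ≤ 18 + d.conc i i := by
  unfold Design.rep Design.conc
  simp only [Fin.sum_univ_four]
  nlinarith [sq_nonneg ((d.N i 0 : ℤ) - 1), N_le d i 0, N_le d i 1, N_le d i 2, N_le d i 3]

/-- the codes of a design -/
def codes (d : Design 7 4 3) : Fin 7 → ℕ := fun i => cd (d.N i)

lemma mat_cast (d : Design 7 4 3) :
    (mat (codes d)).map (Nat.castRingHom ℝ)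
      = (18 : ℝ) • (1 : Matrix (Fin 7) (Fin 7) ℝ) - (3 : ℝ) • d.info := by
  ext i j
  simp only [Matrix.map_apply, mat, zero_add, codes, dotc_cd, repc_cd, Matrix.sub_apply,
    Matrix.smul_apply, Design.info, Matrix.of_apply, smul_eq_mul]
  by_cases h : i = j
  · subst h
    rw [if_pos rfl, if_pos rfl, Matrix.one_apply_eq, Nat.coe_castRingHom]
    rw [Nat.cast_sub (rep_conc d i)]
    push_cast
    ring
  · have h1 : ¬ (j.val = i.val) := fun h' => h (Fin.ext h'.symm)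
    rw [if_neg h1, if_neg h, Matrix.one_apply_ne h, Nat.coe_castRingHom]
    push_cast
    ring

lemma trace_cast (d : Design 7 4 3) (j : ℕ) :
    ((((mat (codes d)) ^ j).trace : ℕ) : ℝ) = ∑ i, (18 - 3 * ev d i) ^ j := by
  rw [← trace_pow_aux, ← mat_cast, ← Matrix.map_pow]
  simp [Matrix.trace]

/-- power sums of the eigenvalues from the power sums of `18 - 3 ev` -/
lemma power_sums (x : Fin 7 → ℝ) (q1 q2 q3 q4 q5 q6 : ℤ)
    (h1 : (q1 : ℝ) = ∑ i, (18 - x i) ^ 1) (h2 : (q2 : ℝ) = ∑ i, (18 - x i) ^ 2)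
    (h3 : (q3 : ℝ) = ∑ i, (18 - x i) ^ 3) (h4 : (q4 : ℝ) = ∑ i, (18 - x i) ^ 4)
    (h5 : (q5 : ℝ) = ∑ i, (18 - x i) ^ 5) (h6 : (q6 : ℝ) = ∑ i, (18 - x i) ^ 6) :
    ((P1 q1 : ℤ) : ℝ) = ∑ i, x i ^ 1 ∧ ((P2 q1 q2 : ℤ) : ℝ) = ∑ i, x i ^ 2 ∧
    ((P3 q1 q2 q3 : ℤ) : ℝ) = ∑ i, x i ^ 3 ∧ ((P4 q1 q2 q3 q4 : ℤ) : ℝ) = ∑ i, x i ^ 4 ∧
    ((P5 q1 q2 q3 q4 q5 : ℤ) : ℝ) = ∑ i, x i ^ 5 ∧
    ((P6 q1 q2 q3 q4 q5 q6 : ℤ) : ℝ) = ∑ i, x i ^ 6 := by
  unfold P1 P2 P3 P4 P5 P6
  push_cast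
  rw [h1, h2, h3, h4, h5, h6]
  simp only [Fin.sum_univ_seven]
  refine ⟨?_, ?_, ?_, ?_, ?_, ?_⟩ <;> ring

/-- Newton's identities for six numbers -/
lemma newton (a b c d e f : ℝ) (p1 p2 p3 p4 p5 p6 : ℤ)
    (h1 : (p1 : ℝ) = a + b + c + d + e + f)
    (h2 : (p2 : ℝ) = a ^ 2 + b ^ 2 + c ^ 2 + d ^ 2 + e ^ 2 + f ^ 2)
    (h3 : (p3 : ℝ) = a ^ 3 + b ^ 3 + c ^ 3 + d ^ 3 + e ^ 3 + f ^ 3)
    (h4 : (p4 : ℝ) = a ^ 4 + b ^ 4 + c ^ 4 + d ^ 4 + e ^ 4 + f ^ 4)
    (h5 : (p5 : ℝ) = a ^ 5 + b ^ 5 + c ^ 5 + d ^ 5 + e ^ 5 + f ^ 5)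
    (h6 : (p6 : ℝ) = a ^ 6 + b ^ 6 + c ^ 6 + d ^ 6 + e ^ 6 + f ^ 6) :
    ((E5 p1 p2 p3 p4 p5 : ℤ) : ℝ) = 120 * (b * c * d * e * f + a * c * d * e * f
      + a * b * d * e * f + a * b * c * e * f + a * b * c * d * f + a * b * c * d * e) ∧
    ((E6 p1 p2 p3 p4 p5 p6 : ℤ) : ℝ) = 720 * (a * b * c * d * e * f) := by
  have k2 : ((E2 p1 p2 : ℤ) : ℝ) = 2 * (a * b + a * c + a * d + a * e + a * f + b * c + b * d
      + b * e + b * f + c * d + c * e + c * f + d * e + d * f + e * f) := by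
    unfold E2; push_cast; rw [h1, h2]; ring
  have k3 : ((E3 p1 p2 p3 : ℤ) : ℝ) = 6 * (a * b * c + a * b * d + a * b * e + a * b * f
      + a * c * d + a * c * e + a * c * f + a * d * e + a * d * f + a * e * f + b * c * d
      + b * c * e + b * c * f + b * d * e + b * d * f + b * e * f + c * d * e + c * d * f
      + c * e * f + d * e * f) := by
    unfold E3; push_cast; rw [k2, h1, h2, h3]; ring
  have k4 : ((E4 p1 p2 p3 p4 : ℤ) : ℝ) = 24 * (a * b * c * d + a * b * c * e + a * b * c * f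
      + a * b * d * e + a * b * d * f + a * b * e * f + a * c * d * e + a * c * d * f
      + a * c * e * f + a * d * e * f + b * c * d * e + b * c * d * f + b * c * e * f
      + b * d * e * f + c * d * e * f) := by
    unfold E4; push_cast; rw [k3, k2, h1, h2, h3, h4]; ring
  have k5 : ((E5 p1 p2 p3 p4 p5 : ℤ) : ℝ) = 120 * (b * c * d * e * f + a * c * d * e * f
      + a * b * d * e * f + a * b * c * e * f + a * b * c * d * f + a * b * c * d * e) := by
    unfold E5; push_cast; rw [k4, k3, k2, h1, h2, h3, h4, h5]; ring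
  refine ⟨k5, ?_⟩
  unfold E6; push_cast; rw [k5, k4, k3, k2, h1, h2, h3, h4, h5, h6]; ring

/-- the kernel's numbers in terms of the non-trivial eigenvalues -/
lemma link (d : Design 7 4 3) (hpos : ∀ x ∈ d.theta, 0 < x) :
    (((chkE (List.ofFn (codes d))).2 : ℤ) : ℝ) = 720 * 729 * d.theta.prod ∧
    (((chkE (List.ofFn (codes d))).1 : ℤ) : ℝ)
      = 120 * 243 * (d.theta.prod * (d.theta.map fun x => x⁻¹).sum) := by
  obtain ⟨i0, h0⟩ := exists_ev_zero d (by norm_num) (by norm_num)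
  have hth := theta_eq d h0
  have hcard := theta_card d (by norm_num) (by norm_num)
  obtain ⟨t1, t2, t3, t4, t5, t6⟩ := mul_eqs (codes d)
  have hsum : ∀ j : ℕ, j ≠ 0 → ∑ i, (3 * ev d i) ^ j = (d.theta.map fun x => (3 * x) ^ j).sum := by
    intro j hj
    rw [hth, Multiset.map_map, ← Finset.add_sum_erase _ _ (Finset.mem_univ i0), h0]
    simp only [mul_zero, zero_pow hj, zero_add]
    rfl
  obtain ⟨p1, p2, p3, p4, p5, p6⟩ := power_sums (fun i => 3 * ev d i)
    (((mat (codes d)) ^ 1).trace : ℕ) (((mat (codes d)) ^ 2).trace : ℕ)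
    (((mat (codes d)) ^ 3).trace : ℕ) (((mat (codes d)) ^ 4).trace : ℕ)
    (((mat (codes d)) ^ 5).trace : ℕ) (((mat (codes d)) ^ 6).trace : ℕ)
    (by rw [Int.cast_natCast]; exact trace_cast d 1)
    (by rw [Int.cast_natCast]; exact trace_cast d 2)
    (by rw [Int.cast_natCast]; exact trace_cast d 3)
    (by rw [Int.cast_natCast]; exact trace_cast d 4)
    (by rw [Int.cast_natCast]; exact trace_cast d 5)
    (by rw [Int.cast_natCast]; exact trace_cast d 6)
  rw [hsum 1 (by norm_num)] at p1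
  rw [hsum 2 (by norm_num)] at p2
  rw [hsum 3 (by norm_num)] at p3
  rw [hsum 4 (by norm_num)] at p4
  rw [hsum 5 (by norm_num)] at p5
  rw [hsum 6 (by norm_num)] at p6
  unfold chkE
  simp only [t1, t2, t3, t4, t5, t6]
  revert p1 p2 p3 p4 p5 p6 hpos
  generalize d.theta = T at hcard
  rw [← T.coe_toList] at hcard ⊢
  rw [Multiset.coe_card] at hcard
  match T.toList, hcard with
  | [a, b, c, e, f, g], _ =>
    simp only [Multiset.mem_coe, List.mem_cons, List.not_mem_nil, or_false,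
      forall_eq_or_imp, forall_eq, Multiset.map_coe, List.map_cons, List.map_nil,
      Multiset.sum_coe, List.sum_cons, List.sum_nil, add_zero, Multiset.prod_coe,
      List.prod_cons, List.prod_nil, mul_one]
    rintro ⟨ha, hb, hc, he, hf, hg⟩ p1 p2 p3 p4 p5 p6
    obtain ⟨n5, n6⟩ := newton (3 * a) (3 * b) (3 * c) (3 * e) (3 * f) (3 * g) _ _ _ _ _ _
      (by rw [p1]; ring) (by rw [p2]; ring) (by rw [p3]; ring) (by rw [p4]; ring)
      (by rw [p5]; ring) (by rw [p6]; ring)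
    rw [n5, n6]
    refine ⟨by ring, ?_⟩
    field_simp
    ring

end Pool.Agent.J4H83.OD
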