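import Pool.Agent.J4H83.OD.AOpt
import Pool.Agent.J4H83.OD.EOpt

/-!
# The pairwise variances
-/

open Finset Matrix

namespace Pool.Agent.J4H83.OD

variable {v b k : ℕ}

lemma pvar_eq (d : Design v b k) (G : Matrix (Fin v) (Fin v) ℝ) (hG : d.IsGInv G) (i j : Fin v)
    (y : Fin v → ℝ) (hy : d.info *ᵥ y = Pi.single i 1 - Pi.single j 1) :
    pvar G i j = y i - y j := by
  unfold pvar
  have hs : d.infoᵀ = d.info := by
    have := info_isHermitian d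
    rw [Matrix.IsHermitian, Matrix.conjTranspose_eq_transpose_of_trivial] at this
    exact this
  have h1 : (d.info *ᵥ y) ⬝ᵥ (G *ᵥ (d.info *ᵥ y)) = y ⬝ᵥ (d.info *ᵥ y) := by
    have e : y ⬝ᵥ (d.info *ᵥ y) = y ⬝ᵥ ((d.info * G * d.info) *ᵥ y) := by rw [hG]
    have e2 : (d.info * G * d.info) *ᵥ y = d.info *ᵥ (G *ᵥ (d.info *ᵥ y)) := by
      rw [Matrix.mul_assoc, ← Matrix.mulVec_mulVec, ← Matrix.mulVec_mulVec]
    rw [e, e2, Matrix.dotProduct_mulVec y, ← Matrix.mulVec_transpose, hs]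
  rw [← hy, h1, hy]
  simp [dotProduct_sub]

lemma dA_info_mulVec (y w : Fin 7 → ℝ) (h : ∀ i, (dA.rep i : ℝ) * y i
    - ((3 : ℕ) : ℝ)⁻¹ * ∑ j, (dA.conc i j : ℝ) * y j = w i) : dA.info *ᵥ y = w := by
  ext i
  rw [info_mulVec]
  exact h i

lemma dA_15 (G : Matrix (Fin 7) (Fin 7) ℝ) (hG : dA.IsGInv G) : pvar G 1 5 = 29 / 16 := by
  rw [pvar_eq dA G hG 1 5 ![0, 5 / 16, 1 / 16, -5 / 16, -1 / 16, -3 / 2, 0]]
  · change (5 / 16 : ℝ) - (-3 / 2) = 29 / 16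
    norm_num
  · apply dA_info_mulVec
    intro i
    simp only [dA_conc, dA_rep, Fin.sum_univ_seven]
    fin_cases i <;> simp [Fin.ext_iff] <;> norm_num

lemma dA_14 (G : Matrix (Fin 7) (Fin 7) ℝ) (hG : dA.IsGInv G) : pvar G 1 4 = 7 / 4 := by
  rw [pvar_eq dA G hG 1 4 ![1 / 2, 11 / 8, 3 / 8, 5 / 8, -3 / 8, 1, 0]]
  · change (11 / 8 : ℝ) - (-3 / 8) = 7 / 4
    norm_num
  · apply dA_info_mulVec
    intro i
    simp only [dA_conc, dA_rep, Fin.sum_univ_seven]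
    fin_cases i <;> simp [Fin.ext_iff] <;> norm_num

lemma dE_rep (i : Fin 6) : dE.rep i = if i.val < 2 then 4 else 2 := by
  revert i; decide

lemma dE_02 (G : Matrix (Fin 6) (Fin 6) ℝ) (hG : dE.IsGInv G) : pvar G 0 2 = 5 / 4 := by
  rw [pvar_eq dE G hG 0 2 ![1 / 4, -1 / 4, -1, 0, 0, 0]]
  · change (1 / 4 : ℝ) - (-1) = 5 / 4
    norm_num
  · ext i
    rw [info_mulVec]
    simp only [dE_conc, dE_rep, Fin.sum_univ_six]
    fin_cases i <;> simp [Fin.ext_iff] <;> norm_num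

lemma dE_01 (G : Matrix (Fin 6) (Fin 6) ℝ) (hG : dE.IsGInv G) : pvar G 0 1 = 1 := by
  rw [pvar_eq dE G hG 0 1 ![1 / 2, -1 / 2, 0, 0, 0, 0]]
  · change (1 / 2 : ℝ) - (-1 / 2) = 1
    norm_num
  · ext i
    rw [info_mulVec]
    simp only [dE_conc, dE_rep, Fin.sum_univ_six]
    fin_cases i <;> simp [Fin.ext_iff] <;> norm_num

end Pool.Agent.J4H83.OD
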