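import Pool.Agent.J4H83.OD.Defs
import Mathlib.Tactic

/-!
# Spectral facts on information matrices
-/

open Finset Matrix

namespace Pool.Agent.J4H83.OD

variable {v b k : ℕ}

lemma conc_comm (d : Design v b k) (i j : Fin v) : d.conc i j = d.conc j i := by
  unfold Design.conc; exact Finset.sum_congr rfl fun B _ => Nat.mul_comm _ _

lemma conc_row (d : Design v b k) (i : Fin v) : ∑ j, d.conc i j = k * d.rep i := by
  unfold Design.conc Design.rep
  rw [Finset.sum_comm, Finset.mul_sum]
  refine Finset.sum_congr rfl fun B _ => ?_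
  rw [← Finset.mul_sum, d.size B, Nat.mul_comm]

lemma info_isHermitian (d : Design v b k) : d.info.IsHermitian := by
  ext i j
  simp only [Matrix.conjTranspose_apply, Design.info, Matrix.of_apply, star_trivial]
  rw [conc_comm d j i]
  by_cases h : i = j
  · subst h; simp
  · rw [if_neg h, if_neg (Ne.symm h)]

lemma info_mulVec (d : Design v b k) (x : Fin v → ℝ) (i : Fin v) :
    (d.info *ᵥ x) i = d.rep i * x i - (k : ℝ)⁻¹ * ∑ j, (d.conc i j : ℝ) * x j := by
  simp only [Matrix.mulVec, dotProduct, Design.info, Matrix.of_apply, sub_mul,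
    Finset.sum_sub_distrib, ite_mul, zero_mul]
  congr 1
  · simp
  · rw [Finset.mul_sum]; exact Finset.sum_congr rfl fun j _ => by ring

lemma quad (d : Design v b k) (hk : 0 < k) (x : Fin v → ℝ) :
    x ⬝ᵥ (d.info *ᵥ x) = (2 * (k : ℝ))⁻¹ * ∑ i, ∑ j, (d.conc i j : ℝ) * (x i - x j) ^ 2 := by
  have hk' : (k : ℝ) ≠ 0 := by positivity
  have h1 : ∀ i, ∑ j, (d.conc i j : ℝ) = k * d.rep i := by
    intro i; exact_mod_cast conc_row d i
  have hA : ∑ i, ∑ j, (d.conc i j : ℝ) * (x i) ^ 2 = ∑ i, (k : ℝ) * d.rep i * x i ^ 2 := by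
    refine Finset.sum_congr rfl fun i _ => ?_
    rw [← Finset.sum_mul, h1]
  have hB : ∑ i, ∑ j, (d.conc i j : ℝ) * (x j) ^ 2 = ∑ i, (k : ℝ) * d.rep i * x i ^ 2 := by
    rw [Finset.sum_comm, ← hA]
    refine Finset.sum_congr rfl fun i _ => Finset.sum_congr rfl fun j _ => ?_
    rw [conc_comm]
  have hC : ∑ i, ∑ j, (d.conc i j : ℝ) * (x i - x j) ^ 2
      = 2 * (∑ i, (k : ℝ) * d.rep i * x i ^ 2) - 2 * ∑ i, ∑ j, (d.conc i j : ℝ) * (x i * x j) := by
    have : ∀ i j, (d.conc i j : ℝ) * (x i - x j) ^ 2 = (d.conc i j : ℝ) * (x i) ^ 2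
        + (d.conc i j : ℝ) * (x j) ^ 2 - 2 * ((d.conc i j : ℝ) * (x i * x j)) := by
      intro i j; ring
    simp only [this, Finset.sum_sub_distrib, Finset.sum_add_distrib, hA, hB, ← Finset.mul_sum]
    ring
  rw [hC]
  simp only [dotProduct, info_mulVec]
  have : ∀ i, x i * (d.rep i * x i - (k : ℝ)⁻¹ * ∑ j, (d.conc i j : ℝ) * x j)
      = (k : ℝ)⁻¹ * ((k : ℝ) * d.rep i * x i ^ 2 - ∑ j, (d.conc i j : ℝ) * (x i * x j)) := by
    intro i
    have e : ∑ j, (d.conc i j : ℝ) * (x i * x j) = x i * ∑ j, (d.conc i j : ℝ) * x j := by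
      rw [Finset.mul_sum]; exact Finset.sum_congr rfl fun j _ => by ring
    rw [e]; field_simp
  simp only [this, ← Finset.mul_sum, Finset.sum_sub_distrib]
  field_simp

lemma info_one (d : Design v b k) (hk : 0 < k) : d.info *ᵥ (fun _ => (1 : ℝ)) = 0 := by
  ext i
  rw [info_mulVec]
  have h1 : ∑ j, (d.conc i j : ℝ) = k * d.rep i := by exact_mod_cast conc_row d i
  have hk' : (k : ℝ) ≠ 0 := by positivity
  simp only [mul_one, h1, Pi.zero_apply]
  field_simp
  simp

/-- in a connected design, a vector with zero quadratic form is constant -/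
lemma const_of_quad (d : Design v b k) (hk : 0 < k) (hc : d.Connected) (x : Fin v → ℝ)
    (h : x ⬝ᵥ (d.info *ᵥ x) = 0) (i j : Fin v) : x i = x j := by
  rw [quad d hk] at h
  have hk' : (0 : ℝ) < (2 * (k : ℝ))⁻¹ := by positivity
  have h0 : ∑ i, ∑ j, (d.conc i j : ℝ) * (x i - x j) ^ 2 = 0 := by
    rcases mul_eq_zero.1 h with h | h
    · exact absurd h hk'.ne'
    · exact h
  have hadj : ∀ i j, d.graph.Adj i j → x i = x j := by
    intro i j hij
    have h1 := (Finset.sum_eq_zero_iff_of_nonneg (fun i _ => Finset.sum_nonneg fun j _ => by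
      positivity)).1 h0 i (Finset.mem_univ _)
    have h2 := (Finset.sum_eq_zero_iff_of_nonneg (fun j _ => by positivity)).1 h1 j
      (Finset.mem_univ _)
    have h3 : (0 : ℝ) < d.conc i j := by exact_mod_cast hij.2
    rcases mul_eq_zero.1 h2 with h4 | h4
    · exact absurd h4 h3.ne'
    · have := pow_eq_zero_iff (two_ne_zero) |>.1 h4
      linarith
  have hreach := hc.preconnected i j
  obtain ⟨w⟩ := hreach
  induction w with
  | nil => rfl
  | cons h _ ih => exact (hadj _ _ h).trans ih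

lemma quad_nonneg (d : Design v b k) (hk : 0 < k) (x : Fin v → ℝ) :
    0 ≤ x ⬝ᵥ (d.info *ᵥ x) := by
  rw [quad d hk]
  have : 0 ≤ ∑ i, ∑ j, (d.conc i j : ℝ) * (x i - x j) ^ 2 :=
    Finset.sum_nonneg fun i _ => Finset.sum_nonneg fun j _ => by positivity
  positivity

section eig

variable (d : Design v b k)

/-- eigenvalues -/
noncomputable def ev (i : Fin v) : ℝ := (info_isHermitian d).eigenvalues i

/-- eigenvectors -/
noncomputable def eu (i : Fin v) : Fin v → ℝ := ⇑((info_isHermitian d).eigenvectorBasis i)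

lemma info_eu (i : Fin v) : d.info *ᵥ (eu d i) = ev d i • eu d i :=
  (info_isHermitian d).mulVec_eigenvectorBasis i

lemma eu_dot (i j : Fin v) : eu d i ⬝ᵥ eu d j = if i = j then 1 else 0 := by
  have h := orthonormal_iff_ite.1 (info_isHermitian d).eigenvectorBasis.orthonormal j i
  rw [EuclideanSpace.inner_eq_star_dotProduct] at h
  simp only [star_trivial] at h
  unfold eu
  rw [h]
  by_cases hij : i = j
  · simp [hij]
  · rw [if_neg hij, if_neg (Ne.symm hij)]

lemma eu_quad (i : Fin v) : eu d i ⬝ᵥ (d.info *ᵥ eu d i) = ev d i := by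
  rw [info_eu, dotProduct_smul, eu_dot]; simp

lemma ev_nonneg (hk : 0 < k) (i : Fin v) : 0 ≤ ev d i := by
  rw [← eu_quad]; exact quad_nonneg d hk _

lemma exists_ev_zero (hk : 0 < k) (hv : 0 < v) : ∃ i, ev d i = 0 := by
  have hdet : d.info.det = 0 := by
    rw [← Matrix.exists_mulVec_eq_zero_iff]
    refine ⟨fun _ => 1, ?_, info_one d hk⟩
    intro h
    have := congrFun h ⟨0, hv⟩
    simp at this
  rw [(info_isHermitian d).det_eq_prod_eigenvalues] at hdet
  rcases Finset.prod_eq_zero_iff.1 hdet with ⟨i, _, hi⟩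
  exact ⟨i, by simpa [ev] using hi⟩

lemma theta_eq {i0 : Fin v} (h0 : ev d i0 = 0) :
    d.theta = (Finset.univ.erase i0).val.map (ev d) := by
  unfold Design.theta
  rw [(info_isHermitian d).roots_charpoly_eq_eigenvalues]
  rw [Finset.erase_val, Multiset.map_erase_of_mem _ _ (Finset.mem_univ i0)]
  rw [h0]
  rfl

lemma mem_theta {i0 : Fin v} (h0 : ev d i0 = 0) (x : ℝ) :
    x ∈ d.theta ↔ ∃ i, i ≠ i0 ∧ ev d i = x := by
  rw [theta_eq d h0, Multiset.mem_map]
  simp only [Finset.mem_val, Finset.mem_erase, Finset.mem_univ, and_true, ne_eq]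

lemma theta_card (hk : 0 < k) (hv : 0 < v) : d.theta.card = v - 1 := by
  obtain ⟨i0, h0⟩ := exists_ev_zero d hk hv
  rw [theta_eq d h0]; simp

lemma eu_const (hk : 0 < k) (hc : d.Connected) {i : Fin v} (h0 : ev d i = 0) (a c : Fin v) :
    eu d i a = eu d i c :=
  const_of_quad d hk hc _ (by rw [eu_quad, h0]) a c

/-- for a connected design, the other eigenvectors are orthogonal to the constant vector and have
positive eigenvalues -/
lemma sum_eu (hk : 0 < k) (hc : d.Connected) {i0 i : Fin v} (h0 : ev d i0 = 0) (hi : i ≠ i0) :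
    ∑ a, eu d i a = 0 := by
  have h1 := eu_dot d i0 i0
  have h2 := eu_dot d i i0
  rw [if_neg hi] at h2
  rw [if_pos rfl] at h1
  simp only [dotProduct] at h1 h2
  have hcst : ∀ a, eu d i0 a = eu d i0 i0 := fun a => eu_const d hk hc h0 a i0
  simp only [hcst] at h1 h2
  rw [← Finset.sum_mul] at h2
  rcases mul_eq_zero.1 h2 with h | h
  · exact h
  · rw [h] at h1; simp at h1

lemma ev_pos (hk : 0 < k) (hc : d.Connected) {i0 i : Fin v} (h0 : ev d i0 = 0) (hi : i ≠ i0) :
    0 < ev d i := by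
  rcases (ev_nonneg d hk i).lt_or_eq with h | h
  · exact h
  · exfalso
    have hs := sum_eu d hk hc h0 hi
    have hcst : ∀ a, eu d i a = eu d i i := fun a => eu_const d hk hc h.symm a i
    have h1 := eu_dot d i i
    rw [if_pos rfl] at h1
    simp only [dotProduct, hcst] at h1
    simp only [hcst] at hs
    rw [← Finset.sum_mul, hs] at h1
    simp at h1

lemma theta_pos (hk : 0 < k) (hv : 0 < v) (hc : d.Connected) : ∀ x ∈ d.theta, 0 < x := by
  obtain ⟨i0, h0⟩ := exists_ev_zero d hk hv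
  intro x hx
  obtain ⟨i, hi, rfl⟩ := (mem_theta d h0 x).1 hx
  exact ev_pos d hk hc h0 hi

/-- expansion of a vector in the eigenbasis -/
lemma expand (x : Fin v → ℝ) : x = ∑ i, (eu d i ⬝ᵥ x) • eu d i := by
  have h := (info_isHermitian d).eigenvectorBasis.sum_repr' (WithLp.toLp 2 x)
  have h2 := congrArg WithLp.ofLp h
  simp only [WithLp.ofLp_sum, WithLp.ofLp_smul] at h2
  conv_lhs => rw [← h2]
  refine Finset.sum_congr rfl fun i _ => ?_
  congr 1
  rw [EuclideanSpace.inner_eq_star_dotProduct]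
  simp [eu, dotProduct_comm]

lemma quad_expand (x : Fin v → ℝ) :
    x ⬝ᵥ (d.info *ᵥ x) = ∑ i, ev d i * (eu d i ⬝ᵥ x) ^ 2 := by
  have h : d.info *ᵥ x = ∑ i, (eu d i ⬝ᵥ x) • (ev d i • eu d i) := by
    conv_lhs => rw [expand d x]
    rw [Matrix.mulVec_sum]
    refine Finset.sum_congr rfl fun i _ => ?_
    rw [Matrix.mulVec_smul, info_eu]
  rw [h, dotProduct_sum]
  refine Finset.sum_congr rfl fun i _ => ?_
  rw [dotProduct_smul, dotProduct_smul, dotProduct_comm x]
  simp only [smul_eq_mul]; ring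

lemma norm_expand (x : Fin v → ℝ) : x ⬝ᵥ x = ∑ i, (eu d i ⬝ᵥ x) ^ 2 := by
  conv_lhs => rw [expand d x]
  rw [sum_dotProduct]
  refine Finset.sum_congr rfl fun i _ => ?_
  rw [smul_dotProduct]
  have : eu d i ⬝ᵥ (∑ j, (eu d j ⬝ᵥ x) • eu d j) = eu d i ⬝ᵥ x := by
    rw [← expand d x]
  rw [this]
  simp only [smul_eq_mul]; ring

end eig

/-- existence of a generalised inverse -/
lemma exists_gInv (d : Design v b k) : ∃ G, d.IsGInv G := by
  have hA := info_isHermitian d
  have h := hA.spectral_theorem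
  refine ⟨Unitary.conjStarAlgAut ℝ _ hA.eigenvectorUnitary
    (Matrix.diagonal fun i => (hA.eigenvalues i)⁻¹), ?_⟩
  unfold Design.IsGInv
  calc d.info * (Unitary.conjStarAlgAut ℝ _ hA.eigenvectorUnitary
          (Matrix.diagonal fun i => (hA.eigenvalues i)⁻¹)) * d.info
      = (Unitary.conjStarAlgAut ℝ _ hA.eigenvectorUnitary
          (Matrix.diagonal (RCLike.ofReal ∘ hA.eigenvalues))) *
          (Unitary.conjStarAlgAut ℝ _ hA.eigenvectorUnitary
          (Matrix.diagonal fun i => (hA.eigenvalues i)⁻¹)) *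
          (Unitary.conjStarAlgAut ℝ _ hA.eigenvectorUnitary
          (Matrix.diagonal (RCLike.ofReal ∘ hA.eigenvalues))) := by rw [← h]
    _ = Unitary.conjStarAlgAut ℝ _ hA.eigenvectorUnitary
          (Matrix.diagonal (RCLike.ofReal ∘ hA.eigenvalues)) := by
        rw [← map_mul, ← map_mul, Matrix.diagonal_mul_diagonal, Matrix.diagonal_mul_diagonal]
        congr 2
        ext i
        simp only [Function.comp_apply, RCLike.ofReal_real_eq_id, id_eq]
        by_cases h0 : hA.eigenvalues i = 0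
        · simp [h0]
        · field_simp
    _ = d.info := h.symm

/-- traces of powers -/
lemma trace_pow_aux (d : Design v b k) (c a : ℝ) (j : ℕ) :
    ((c • (1 : Matrix (Fin v) (Fin v) ℝ) - a • d.info) ^ j).trace
      = ∑ i, (c - a * ev d i) ^ j := by
  have hA := info_isHermitian d
  have h := hA.spectral_theorem
  have h1 : c • (1 : Matrix (Fin v) (Fin v) ℝ) - a • d.info
      = Unitary.conjStarAlgAut ℝ _ hA.eigenvectorUnitary
        (Matrix.diagonal fun i => c - a * ev d i) := by
    have e : (Matrix.diagonal fun i => c - a * ev d i)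
        = c • (1 : Matrix (Fin v) (Fin v) ℝ) - a • Matrix.diagonal (RCLike.ofReal ∘ hA.eigenvalues) := by
      ext i j
      by_cases hij : i = j
      · subst hij; simp [ev]
      · simp [hij]
    rw [e, map_sub, map_smul, map_smul, map_one]
    conv_lhs => rw [h]
  rw [h1, ← map_pow, Matrix.diagonal_pow, Unitary.conjStarAlgAut_apply, Matrix.trace_mul_cycle]
  simp [Matrix.trace_diagonal]

/-- relabelling treatments and blocks -/
def Design.perm (d : Design v b k) (σ : Equiv.Perm (Fin v)) (π : Equiv.Perm (Fin b)) :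
    Design v b k where
  N i B := d.N (σ i) (π B)
  size B := (Equiv.sum_comp σ fun i => d.N i (π B)).trans (d.size (π B))

lemma perm_rep (d : Design v b k) (σ : Equiv.Perm (Fin v)) (π : Equiv.Perm (Fin b)) (i : Fin v) :
    (d.perm σ π).rep i = d.rep (σ i) :=
  Equiv.sum_comp π fun B => d.N (σ i) B

lemma perm_conc (d : Design v b k) (σ : Equiv.Perm (Fin v)) (π : Equiv.Perm (Fin b))
    (i j : Fin v) : (d.perm σ π).conc i j = d.conc (σ i) (σ j) :=
  Equiv.sum_comp π fun B => d.N (σ i) B * d.N (σ j) B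

lemma perm_theta (d : Design v b k) (σ : Equiv.Perm (Fin v)) (π : Equiv.Perm (Fin b)) :
    (d.perm σ π).theta = d.theta := by
  have : (d.perm σ π).info = Matrix.reindex σ.symm σ.symm d.info := by
    ext i j
    simp [Design.info, perm_rep, perm_conc]
  unfold Design.theta
  rw [this, Matrix.charpoly_reindex]

lemma rep_pos (d : Design v b k) (hv : 1 < v) (hc : d.Connected) (i : Fin v) : 0 < d.rep i := by
  have : Nontrivial (Fin v) := Fin.nontrivial_iff_two_le.2 hv
  obtain ⟨j, hj⟩ := hc.preconnected.exists_adj_of_nontrivial i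
  rcases Nat.eq_zero_or_pos (d.rep i) with h | h
  · exfalso
    have h2 := hj.2
    have h3 : ∀ B, d.N i B = 0 := by
      intro B
      have := (Finset.sum_eq_zero_iff.1 h) B (Finset.mem_univ _)
      exact this
    unfold Design.conc at h2
    simp [h3] at h2
  · exact h

end Pool.Agent.J4H83.OD
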